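import Pool.Agent.Run7.h793.Cl.Main

/-!
Clarkson-type inequality for `n`-tuples of operators in the Schatten class `S_p`, `p ≥ 2`,
with the sum and the pairwise differences on the right hand side.
-/

open scoped ENNReal

namespace Pool.Agent.Results.MP_5deb6a_an.ClarksonGeTwo

open Run7.h793.Cl

/-- Q1: for `2 ≤ p < ∞`, `1/p + 1/q = 1` and `A_0, …, A_{n-1} ∈ S_p`,
`n (∑ ‖A_j‖_p^p)^{q/p} ≤ ‖∑ A_j‖_p^q + ∑_{j<k} ‖A_j - A_k‖_p^q`. -/
theorem result.{u} {H : Type u} [NormedAddCommGroup H] [InnerProductSpace ℂ H] [CompleteSpace H]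
    (n : ℕ) (p q : ℝ) (hp : 2 ≤ p) (hpq : 1 / p + 1 / q = 1) (A : Fin n → H →L[ℂ] H)
    (hA : ∀ j, schatten p (A j) < ⊤) :
    (n : ℝ≥0∞) * (∑ j, schatten p (A j) ^ p) ^ (q / p) ≤
      schatten p (∑ j, A j) ^ q + ∑ j, ∑ k ∈ Finset.Ioi j, schatten p (A j - A k) ^ q := by
  have hp0 : 0 < p := by linarith
  have h := main_ge_two n hp hpq A (fun j => approx_of_schatten hp0 (hA j))
  unfold LL RR at h
  simp only [schatten_rpow, div_self hp0.ne', ENNReal.rpow_one]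
  exact h

end Pool.Agent.Results.MP_5deb6a_an.ClarksonGeTwo
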