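import Pool.Agent.Run7.h793.Cl.Neg

/-!
The reversed Clarkson-type inequality for `n`-tuples of operators in the Schatten class `S_p`:
it holds for `1 < p ≤ 2`, and it fails for every `0 < p < 1` (where `q` is negative).
-/

open scoped ENNReal

namespace Pool.Agent.Results.MP_5deb6a_an.ClarksonLeTwo

open Run7.h793.Cl

/-- Q2: for `1 < p ≤ 2`, `1/p + 1/q = 1` and `A_0, …, A_{n-1} ∈ S_p`,
`‖∑ A_j‖_p^q + ∑_{j<k} ‖A_j - A_k‖_p^q ≤ n (∑ ‖A_j‖_p^p)^{q/p}`; for `0 < p < 1`, where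
`q = p/(p-1) < 0`, this fails for every `n ≥ 2`, with all quantities finite. -/
theorem result.{u} {H : Type u} [NormedAddCommGroup H] [InnerProductSpace ℂ H] [CompleteSpace H] :
    (∀ (n : ℕ) (p q : ℝ), 1 < p → p ≤ 2 → 1 / p + 1 / q = 1 → ∀ A : Fin n → H →L[ℂ] H,
      (∀ j, schatten p (A j) < ⊤) →
      schatten p (∑ j, A j) ^ q + ∑ j, ∑ k ∈ Finset.Ioi j, schatten p (A j - A k) ^ q ≤
        (n : ℝ≥0∞) * (∑ j, schatten p (A j) ^ p) ^ (q / p)) ∧
    (Nontrivial H → ∀ (n : ℕ) (p q : ℝ), 2 ≤ n → 0 < p → p < 1 → 1 / p + 1 / q = 1 →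
      ∃ A : Fin n → H →L[ℂ] H, (∀ j, schatten p (A j) < ⊤) ∧
        (n : ℝ≥0∞) * (∑ j, schatten p (A j) ^ p) ^ (q / p) <
          schatten p (∑ j, A j) ^ q + ∑ j, ∑ k ∈ Finset.Ioi j, schatten p (A j - A k) ^ q ∧
        schatten p (∑ j, A j) ^ q + ∑ j, ∑ k ∈ Finset.Ioi j, schatten p (A j - A k) ^ q < ⊤) := by
  refine ⟨?_, ?_⟩
  · intro n p q hp hp2 hpq A hA
    have hp0 : 0 < p := by linarith
    have h := main_le_two n hp hp2 hpq A (fun j => approx_of_schatten hp0 (hA j))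
    unfold LL RR at h
    simp only [schatten_rpow, div_self hp0.ne', ENNReal.rpow_one]
    exact h
  · intro hH n p q hn hp0 hp1 hpq
    obtain ⟨A, h1, h2, h3⟩ := neg_main (H := H) n p q hn hp0 hp1 hpq
    refine ⟨A, h1, ?_, ?_⟩
    · unfold LL RR at h2
      simp only [schatten_rpow, div_self hp0.ne', ENNReal.rpow_one]
      exact h2
    · unfold RR at h3
      simp only [schatten_rpow]
      exact h3

end Pool.Agent.Results.MP_5deb6a_an.ClarksonLeTwo
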